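import Pool.Agent.Lib.Helper82.Ell.Main

/-!
# Semi-flat cscK currents are not unique

On the minimal elliptic surface `Φ : X = ℂ²/ℤ[i]² → E = ℂ/ℤ[i]`, `Φ [z, s] = [s]`, let
`ω_c = i/2 (dz + c ds) ∧ conj (dz + c ds) + i ρ ds ∧ ds̄`, where `ρ ds ∧ ds̄` is the pullback by the
Weierstrass function of a hyperbolic metric on the sphere with two cone points.  The `ω_c` are
semi-flat cscK currents of fibre volume `1` and scalar curvature `-3`, smooth off the same finite
set of fibres and with the same volume form, and for `0 ≤ c ≤ 1/2` they are pairwise inequivalent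
under the group `H(X, Φ)`.
-/

set_option autoImplicit false

open Set

namespace Pool.Agent.Results.MP_9b6a46_gt.NotUnique

open Pool.Agent.Lib.Helper82.Ell

theorem result :
    ∃ (P : Set EE) (T : ℝ → Form11 → ℂ) (g : ℝ → Coef),
      (∀ c, IsSemiflatCscKCurrent P (-3) 1 (T c)) ∧
      (∀ c, IsSemiflatCscKMetric P (-3) 1 (g c) ∧ ∀ ψ : Form11, T c ψ = wedge (g c) ψ.coef) ∧
      (∀ c, ∀ x, (mat (g c) (pr x)).det = (mat (g 0) (pr x)).det) ∧
      ∀ c₁ ∈ Icc (0 : ℝ) (1 / 2), ∀ c₂ ∈ Icc (0 : ℝ) (1 / 2), c₁ ≠ c₂ →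
        ∀ (f : XX ≃ XX) (h : EE ≃ EE), IsAutPair f h → ¬ PushEq f (T c₁) (T c₂) :=
  main

end Pool.Agent.Results.MP_9b6a46_gt.NotUnique
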